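import Pool.Agent.Y320.ST.Stm

/-!
# ST-LIMIT: limits of normalised quasi-Moebius maps fixing infinity

`s_limit : S_STB → S_EQC → S_SEPQ → S_LIMIT`.
-/

set_option autoImplicit false
open Filter Topology MeasureTheory Metric

namespace Pool.Agent.Y839.ST

open Pool.Agent.Y320.CM Pool.Agent.Y320.ST

/-- A homeomorphism of the sphere which fixes infinity gives a homeomorphism of the plane. -/
theorem planar (hS : S_STB) (f : Sph → Sph) (hc : Continuous f) (hb : Function.Bijective f)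
    (hi : f inf = inf) : ∃ v : ℂ ≃ₜ ℂ, ∀ z, sg (v z) = f (sg z) := by
  obtain ⟨h1, h2, h3, h4, h5, -⟩ := hS
  set e : Sph ≃ Sph := Equiv.ofBijective f hb with he
  have hec : Continuous e := hc
  set E : Sph ≃ₜ Sph := Continuous.homeoOfEquivCompactToT2 (f := e) hec with hE
  have hEf : ∀ p, E p = f p := fun p => rfl
  have hEi : E inf = inf := hi
  have hEi' : E.symm inf = inf := by
    rw [Homeomorph.symm_apply_eq]
    exact hEi.symm
  have n1 : ∀ z, E (sg z) ≠ inf := fun z hz => h3 z (E.injective (hz.trans hEi.symm))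
  have n2 : ∀ z, E.symm (sg z) ≠ inf := fun z hz => h3 z (E.symm.injective (hz.trans hEi'.symm))
  refine ⟨{ toFun := fun z => st (E (sg z))
            invFun := fun z => st (E.symm (sg z))
            left_inv := ?_
            right_inv := ?_
            continuous_toFun := ?_
            continuous_invFun := ?_ }, ?_⟩
  · intro z
    show st (E.symm (sg (st (E (sg z))))) = z
    rw [h2 _ (n1 z), E.symm_apply_apply, h1]
  · intro z
    show st (E (sg (st (E.symm (sg z))))) = z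
    rw [h2 _ (n2 z), E.apply_symm_apply, h1]
  · exact h5.comp_continuous (E.continuous.comp h4) n1
  · exact h5.comp_continuous (E.symm.continuous.comp h4) n2
  · intro z
    show sg (st (E (sg z))) = f (sg z)
    rw [h2 _ (n1 z), hEf]

theorem wqs_of (hS : S_STB) {N : ℝ → ℝ} (f : Sph → Sph) (hi : f inf = inf) (hQ : QM N f)
    (v : ℂ ≃ₜ ℂ) (hv : ∀ z, sg (v z) = f (sg z)) : WQS (max 1 (N 3)) v := by
  obtain ⟨h1, h2, h3, h4, h5, h6, h7, h8, h9⟩ := hS
  have hsg : Function.Injective sg := fun a b hab => by rw [← h1 a, hab, h1]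
  have hH : (1 : ℝ) ≤ max 1 (N 3) := le_max_left _ _
  intro a b c habc
  by_cases hab : a = b
  · subst hab
    rw [dist_self]
    exact mul_nonneg (zero_le_one.trans hH) dist_nonneg
  by_cases hac : a = c
  · exfalso
    subst hac
    rw [dist_self, mul_zero] at habc
    exact hab (dist_le_zero.mp habc)
  by_cases hbc : b = c
  · subst hbc
    exact le_mul_of_one_le_left dist_nonneg hH
  have hD : D4 (sg a) (sg b) (sg c) inf :=
    ⟨fun h => hab (hsg h), fun h => hac (hsg h), h3 a, fun h => hbc (hsg h), h3 b, h3 c⟩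
  have hdac : 0 < dist a c := dist_pos.mpr hac
  have hle : cr (sg a) (sg b) (sg c) inf ≤ 3 := by
    rw [h8 a b c hac, div_le_iff₀ hdac]
    exact habc
  have hq := hQ _ _ _ _ hD 3 hle
  rw [← hv, ← hv, ← hv, hi] at hq
  have hvac : v a ≠ v c := fun h => hac (v.injective h)
  rw [h8 _ _ _ hvac, div_le_iff₀ (dist_pos.mpr hvac)] at hq
  exact hq.trans (mul_le_mul_of_nonneg_right (le_max_right _ _) dist_nonneg)

theorem s_limit (hS : S_STB) (hE : S_EQC) (hP : S_SEPQ) : S_LIMIT := by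
  classical
  intro N hN c hc 𝓤 h hh
  have hS' := hS
  obtain ⟨h1, h2, h3, h4, h5, h6, h7, h8, h9⟩ := hS
  -- planar versions
  have hv : ∀ n, ∃ v : ℂ ≃ₜ ℂ, ∀ z, sg (v z) = h n (sg z) := fun n =>
    planar hS' (h n) (hh n).1 (hh n).2.1 (hh n).2.2.2.1
  choose v hv using hv
  have hvW : ∀ n, WQS (max 1 (N 3)) (v n) := fun n =>
    wqs_of hS' (h n) (hh n).2.2.2.1 (hh n).2.2.1 (v n) (hv n)
  -- the limit
  have hlim : ∀ p, ∃ q, Tendsto (fun n => h n p) (𝓤 : Filter ℕ) (𝓝 q) := fun p =>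
    exists_lim 𝓤 fun n => h n p
  choose F hF using hlim
  -- equicontinuity
  have heq : ∀ ε : ℝ, 0 < ε → ∃ δ : ℝ, 0 < δ ∧ ∀ n x y, dist x y < δ →
      dist (h n x) (h n y) < ε := by
    intro ε hε
    obtain ⟨δ, hδ, H⟩ := hE N hN c ε hc hε
    exact ⟨δ, hδ, fun n => H (h n) (hh n).2.1.1 (hh n).2.2.1 (hh n).2.2.2.2⟩
  -- convergence
  have hconv : ∀ (Z : ℕ → Sph) (z0 : Sph), Tendsto Z (𝓤 : Filter ℕ) (𝓝 z0) →
      Tendsto (fun n => h n (Z n)) (𝓤 : Filter ℕ) (𝓝 (F z0)) := by
    intro Z z0 hZ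
    rw [Metric.tendsto_nhds]
    intro ε hε
    obtain ⟨δ, hδ, H⟩ := heq (ε / 2) (half_pos hε)
    have e1 := (Metric.tendsto_nhds.mp hZ) δ hδ
    have e2 := (Metric.tendsto_nhds.mp (hF z0)) (ε / 2) (half_pos hε)
    filter_upwards [e1, e2] with n a1 a2
    calc dist (h n (Z n)) (F z0) ≤ dist (h n (Z n)) (h n z0) + dist (h n z0) (F z0) :=
          dist_triangle _ _ _
      _ < ε / 2 + ε / 2 := add_lt_add (H n _ _ a1) a2
      _ = ε := by ring
  have hFc : Continuous F := by
    rw [Metric.continuous_iff]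
    intro x ε hε
    obtain ⟨δ, hδ, H⟩ := heq (ε / 2) (half_pos hε)
    refine ⟨δ, hδ, fun y hy => ?_⟩
    have e1 : Tendsto (fun n => dist (h n y) (h n x)) (𝓤 : Filter ℕ) (𝓝 (dist (F y) (F x))) :=
      (hF y).dist (hF x)
    have e2 : dist (F y) (F x) ≤ ε / 2 :=
      le_of_tendsto e1 (Eventually.of_forall fun n => (H n _ _ hy).le)
    linarith
  have hFi : Function.Injective F := by
    intro x y hxy
    by_contra hne
    obtain ⟨δ, hδ, H⟩ := hP N c (dist x y) hc (dist_pos.mpr hne)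
    have e1 : Tendsto (fun n => dist (h n x) (h n y)) (𝓤 : Filter ℕ) (𝓝 (dist (F x) (F y))) :=
      (hF x).dist (hF y)
    have e2 : δ ≤ dist (F x) (F y) := ge_of_tendsto e1 (Eventually.of_forall fun n =>
      H (h n) (hh n).2.1.1 (hh n).2.2.1 (hh n).2.2.2.2 x y le_rfl)
    rw [hxy, dist_self] at e2
    linarith
  have hFs : Function.Surjective F := by
    intro p
    choose x hx using fun n => (hh n).2.1.2 p
    obtain ⟨q, hq⟩ := exists_lim 𝓤 x
    refine ⟨q, ?_⟩
    have e1 := hconv x q hq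
    have e2 : (fun n => h n (x n)) = fun _ => p := funext hx
    rw [e2] at e1
    exact (tendsto_nhds_unique e1 tendsto_const_nhds)
  have hFinf : F inf = inf := by
    have e1 := hF inf
    have e2 : (fun n => h n inf) = fun _ => inf := funext fun n => (hh n).2.2.2.1
    rw [e2] at e1
    exact (tendsto_nhds_unique e1 tendsto_const_nhds)
  obtain ⟨u, hu⟩ := planar hS' F hFc ⟨hFi, hFs⟩ hFinf
  have hext : ∀ p, ext u p = F p := by
    intro p
    unfold ext
    split_ifs with hp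
    · rw [hp, hFinf]
    · rw [hu, h2 p hp]
  have hst : ∀ z, ContinuousAt st (sg z) := fun z =>
    h5.continuousAt (isOpen_compl_singleton.mem_nhds (h3 z))
  -- planar convergence
  have hpc : ∀ (z : ℕ → ℂ) (z0 : ℂ), Tendsto z (𝓤 : Filter ℕ) (𝓝 z0) →
      Tendsto (fun n => v n (z n)) (𝓤 : Filter ℕ) (𝓝 (u z0)) := by
    intro z z0 hz
    have e1 := hconv (fun n => sg (z n)) (sg z0) ((h4.tendsto z0).comp hz)
    rw [← hu] at e1
    have e2 := (hst (u z0)).tendsto.comp e1
    rw [h1] at e2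
    refine e2.congr fun n => ?_
    show st (h n (sg (z n))) = v n (z n)
    rw [← hv, h1]
  refine ⟨v, u, hv, hvW, ?_, ?_, ?_⟩
  · intro a b d habd
    have ea := hpc (fun _ => a) a tendsto_const_nhds
    have eb := hpc (fun _ => b) b tendsto_const_nhds
    have ed := hpc (fun _ => d) d tendsto_const_nhds
    exact le_of_tendsto_of_tendsto (ea.dist eb) ((ea.dist ed).const_mul _)
      (Eventually.of_forall fun n => hvW n a b d habd)
  · intro R ε hε
    by_contra hcon
    rw [← Ultrafilter.eventually_not] at hcon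
    have hex : ∀ n, ∃ z : ℂ, (¬ ∀ z, ‖z‖ ≤ R → dist (v n z) (u z) ≤ ε) →
        ‖z‖ ≤ R ∧ ε < dist (v n z) (u z) := by
      intro n
      by_cases hn : ∀ z, ‖z‖ ≤ R → dist (v n z) (u z) ≤ ε
      · exact ⟨0, fun h' => absurd hn h'⟩
      · have hn' := hn
        push Not at hn'
        obtain ⟨z, hz1, hz2⟩ := hn'
        exact ⟨z, fun _ => ⟨hz1, hz2⟩⟩
    choose z hz using hex
    have hev : ∀ᶠ n in (𝓤 : Filter ℕ), ‖z n‖ ≤ R ∧ ε < dist (v n (z n)) (u (z n)) :=
      hcon.mono fun n hn => hz n hn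
    obtain ⟨z0, -, hz0⟩ := (isCompact_closedBall (0 : ℂ) R).ultrafilter_le_nhds (𝓤.map z) (by
      rw [le_principal_iff]
      show ∀ᶠ n in (𝓤 : Filter ℕ), z n ∈ closedBall (0 : ℂ) R
      filter_upwards [hev] with n hn
      rw [mem_closedBall_zero_iff]
      exact hn.1)
    have hz0' : Tendsto z (𝓤 : Filter ℕ) (𝓝 z0) := hz0
    have e1 := hpc z z0 hz0'
    have e2 : Tendsto (fun n => u (z n)) (𝓤 : Filter ℕ) (𝓝 (u z0)) :=
      (u.continuous.tendsto z0).comp hz0'
    have e3 := e1.dist e2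
    rw [dist_self] at e3
    have e4 := (e3.eventually (gt_mem_nhds hε)).and hev
    obtain ⟨n, hn1, hn2⟩ := e4.exists
    linarith [hn2.2]
  · intro Z z0 hZ
    rw [hext]
    exact hconv Z z0 hZ

end Pool.Agent.Y839.ST
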